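import Mathlib
import Pool.Agent.Q113.XK.All1

/-!
# The Kikuta–Ruckle conjecture for `n ≥ n0(k)` and every amount of poison
-/

set_option autoImplicit false

namespace Pool.Agent.Results.MP_779da1_co.LargeGroundSets

open Finset

/-- number of lethal `k`-subsets of the distribution `x` -/
noncomputable def L {n : ℕ} (k : ℕ) (x : Fin n → ℝ) : ℕ :=
  Set.ncard {V : Finset (Fin n) | V.card = k ∧ (1 : ℝ) ≤ ∑ i ∈ V, x i}

/-- the `1/j`-distribution: dose `1/j` on `min n ⌊jh⌋` elements, the rest of the poison unused -/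
noncomputable def dose (n : ℕ) (h : ℝ) (j : ℕ) : Fin n → ℝ :=
  fun i => if i.val < min n ⌊h * (j : ℝ)⌋₊ then (1 : ℝ) / (j : ℝ) else 0

/-- For every `k ≥ 1` there is `n0` such that for ALL `n ≥ n0` and ALL real `h ≥ 0` the `1/1`- or the
`1/k`-distribution has at least as many lethal `k`-subsets as every distribution of total dose `h`. -/
theorem result (k : ℕ) (hk : 1 ≤ k) : ∃ n0 : ℕ, ∀ n : ℕ, n0 ≤ n → ∀ h : ℝ, 0 ≤ h →
    ∃ j : ℕ, (j = 1 ∨ j = k) ∧ ∀ x : Fin n → ℝ, (∀ i, 0 ≤ x i) → ∑ i, x i = h →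
      L k x ≤ L k (dose n h j) :=
  Pool.Agent.Q113.XK.poison k hk (Pool.Agent.Q113.XK.krl k hk)

end Pool.Agent.Results.MP_779da1_co.LargeGroundSets
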